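import Mathlib
import Pool.Agent.V1128.SNH.Main

/-!
If `T` is a unitary operator without eigenvalues and with infinite spectrum, and `r > 1`, then
`r T` is strongly numerically hypercyclic.
-/

set_option autoImplicit false

namespace Pool.Agent.Results.MP_f50dde_an.ScaledUnitary

universe u v

/-- `S` is numerically hypercyclic: `{f (S ^ n y) : n ≥ 0}` is dense in `ℂ` for some pair `(y, f)`
with `‖y‖ = ‖f‖ = f y = 1`. -/
def NumericallyHypercyclic {Y : Type v} [NormedAddCommGroup Y] [NormedSpace ℂ Y]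
    (S : Y →L[ℂ] Y) : Prop :=
  ∃ (y : Y) (f : StrongDual ℂ Y), ‖y‖ = 1 ∧ ‖f‖ = 1 ∧ f y = 1 ∧
    Dense (Set.range fun n : ℕ => f ((S ^ n) y))

/-- `A` is strongly numerically hypercyclic: every operator `S` on a Banach space `Y` similar to
`A` (by a linear homeomorphism `J`) is numerically hypercyclic. -/
def StronglyNumericallyHypercyclic {X : Type u} [NormedAddCommGroup X] [NormedSpace ℂ X]
    (A : X →L[ℂ] X) : Prop :=
  ∀ (Y : Type v) [NormedAddCommGroup Y] [NormedSpace ℂ Y] [CompleteSpace Y]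
    (S : Y →L[ℂ] Y) (J : X ≃L[ℂ] Y), (∀ x, J (A x) = S (J x)) → NumericallyHypercyclic S

theorem result (H : Type u) [NormedAddCommGroup H] [InnerProductSpace ℂ H] [CompleteSpace H]
    (T : H →L[ℂ] H) (hT : T ∈ unitary (H →L[ℂ] H)) (hinf : (spectrum ℂ T).Infinite)
    (hp : ∀ c : ℂ, ¬ Module.End.HasEigenvalue (T : H →ₗ[ℂ] H) c) (r : ℝ) (hr : 1 < r) :
    StronglyNumericallyHypercyclic.{u, v} ((r : ℂ) • T) := by
  intro Y _ _ _ S J hSJ
  have hnt : Nontrivial H := by
    by_contra hcon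
    rw [not_nontrivial_iff_subsingleton] at hcon
    have : Subsingleton (H →L[ℂ] H) := ⟨fun A B => by ext x; exact Subsingleton.elim _ _⟩
    rw [spectrum.of_subsingleton] at hinf
    exact hinf Set.finite_empty
  have hne : ∀ (c : ℂ) (x : H), T x = c • x → x = 0 := by
    intro c x hx
    by_contra hx0
    exact hp c (Module.End.hasEigenvalue_of_hasEigenvector
      ⟨Module.End.mem_eigenspace_iff.2 hx, hx0⟩)
  have hr0 : (r:ℂ) ≠ 0 := by
    have : r ≠ 0 := by linarith
    exact_mod_cast this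
  obtain ⟨n, x, f, hx, hf1, hf2, hf3⟩ :=
    V1128.SNH.main hT hne J r hr (TopologicalSpace.denseSeq ℂ)
  have hJx : J x ≠ 0 := fun h => hx (by simpa using h)
  have hJn : 0 < ‖J x‖ := norm_pos_iff.2 hJx
  have hJc : (‖J x‖ : ℂ) ≠ 0 := by exact_mod_cast hJn.ne'
  -- powers
  have hpow : ∀ (m : ℕ) (w : H), (S ^ m) (J w) = (r:ℂ) ^ m • J ((T ^ m) w) := by
    intro m
    induction m with
    | zero => intro w; simp
    | succ m ih =>
      intro w
      rw [pow_succ S m]
      change (S ^ m) (S (J w)) = _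
      rw [← hSJ, ih]
      change (r:ℂ) ^ m • J ((T ^ m) ((r:ℂ) • T w)) = _
      rw [map_smul, map_smul, smul_smul, ← pow_succ, pow_succ T m]
      rfl
  refine ⟨(‖J x‖ : ℂ)⁻¹ • J x, f, ?_, ?_, ?_, ?_⟩
  · rw [norm_smul, norm_inv, Complex.norm_real, norm_norm, inv_mul_cancel₀ hJn.ne']
  · refine le_antisymm hf1 ?_
    have h1 := f.le_opNorm (J x)
    rw [hf2, Complex.norm_real, norm_norm] at h1
    exact le_of_mul_le_mul_right (by linarith) hJn
  · rw [map_smul, hf2, smul_eq_mul, inv_mul_cancel₀ hJc]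
  · refine (TopologicalSpace.denseRange_denseSeq ℂ).mono ?_
    rintro _ ⟨k, rfl⟩
    refine ⟨n k, ?_⟩
    simp only
    rw [map_smul, hpow, map_smul, map_smul, hf3, smul_eq_mul, smul_eq_mul]
    have : (r:ℂ) ^ n k ≠ 0 := pow_ne_zero _ hr0
    field_simp

end Pool.Agent.Results.MP_f50dde_an.ScaledUnitary
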